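import Pool.Agent.N375.AV.D
import Pool.Agent.L7h79.CB.Count

/-!
# The initial segments of arbitrary sets of integers for ALL primes near functions of the values of additive functions

Let `F = f_1 ∘ ⋯ ∘ f_k` be a composition of functions dominated by the largest prime factor, for example of additive functions
`f` with `f(q^j) ≤ C q^j` which are injective at the large primes (the sum of the prime factors), of the largest prime factor
and of Kempner's function. Let `G` have steps bounded below by a positive constant and growth at most `v ^ d`, for example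
`G v = v`. Let `𝒜` be any set of nonnegative integers (no condition on its structure or energy) and let `𝒜(p)` be the set of its
elements below the prime `p`. For every `δ > 0` there is `τ > 0` (independent of `F`, `G`, `𝒜`) such that for `κ ≥ 0`,
`d (1 - τ) + κ < 1`, for all `m ≤ N` but `K N exp (-c (log N)^(1/(k+1)))`, ALL primes `p` with `|p - G (F m)| ≤ F(m) ^ κ` and
`|𝒜(p)| ≥ p ^ δ` satisfy the bound of the question for the quadratic character and all subsets `A` of `𝒜(p)` with at least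
`|𝒜(p)| ^ (1 - τ)` elements: `|∑_{a, b ∈ A} (a - b | p)| < |A| ^ (2 - τ)`. This holds uniformly in `𝒜`. The values of `F` are
taken with very large multiplicities, and `F(m)` is in general of smaller order of magnitude than `m`, and so this does not follow
from the number of the exceptional primes.

Proof. The preimage of a set with at most `K X exp (- c (log X)^β)` elements up to `X` under a function dominated by the largest
prime factor has at most `K' X exp (- c' (log X)^(β / (1 + β)))` elements (the file `Pool/Agent/N375/AV/D.lean`); the exceptional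
primes have a power saving by the starting theorem `InitialSegments`.
-/

set_option autoImplicit false

namespace Pool.Agent.Results.MP_cb27ba_nt.AdditiveValues

open Finset
open Pool.Agent.L7h79.CB (Good count')
open Pool.Agent.N733.TG (Expanding expanding_pow)
open Pool.Agent.N375.AV (PD comp windows_unif pd_additive pd_largest pd_kempner)

/-- **Theorem.** For every `δ > 0` there is `τ` in `(0, 1]` with the following property. Let `F` be a composition of `k` functions
dominated by the largest prime factor (`PD`). Let `G` have steps `≥ a > 0` and growth at most `v ^ d`. Let `κ ≥ 0` and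
`d (1 - τ) + κ < 1`. Then there are `c > 0` and `K` such that for ALL sets `𝒜` of nonnegative integers and all `N ≥ 1`, for all
`m ≤ N` but `K N exp (-c (log N)^(1/(k+1)))`, ALL primes `p` with `|p - G (F m)| ≤ F(m) ^ κ` are good for `𝒜`. All additive
functions `f` with `f(q^j) ≤ C q^j` for the prime powers, injective at the large primes, the largest prime factor and the least
`k` such that `n` divides `k!` are examples of such functions, and `α v ^ d` with `α > 0`, `d ≥ 1` is an example of `G`. -/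
theorem result :
    (∀ δ : ℝ, 0 < δ → ∃ τ : ℝ, 0 < τ ∧ τ ≤ 1 ∧ ∀ fs : List (ℕ → ℕ), (∀ f ∈ fs, PD f) →
      ∀ (G : ℕ → ℝ) (d : ℝ), Expanding G d → ∀ κ : ℝ, 0 ≤ κ → d * (1 - τ) + κ < 1 →
      ∃ c K : ℝ, 0 < c ∧ ∀ (𝒜 : Set ℕ) (N : ℕ), 1 ≤ N →
        ({m : ℕ | 1 ≤ m ∧ m ≤ N ∧ ¬ ∀ p : ℕ, p.Prime → |(p : ℝ) - G (comp fs m)| ≤ (comp fs m : ℝ) ^ κ →
          Good δ τ 𝒜 p}.ncard : ℝ) ≤ K * N * Real.exp (-(c * Real.log N ^ ((1 : ℝ) / (fs.length + 1))))) ∧
    ((∀ f : ℕ → ℕ, (∀ a b : ℕ, Nat.Coprime a b → f (a * b) = f a + f b) →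
        (∃ C : ℕ, ∀ q j : ℕ, q.Prime → 1 ≤ j → f (q ^ j) ≤ C * q ^ j) →
        (∃ P : ℕ, ∀ p q : ℕ, p.Prime → q.Prime → P ≤ p → P ≤ q → f p = f q → p = q) → PD f) ∧
      PD (fun n => n.primeFactors.sup id) ∧ PD (fun n => sInf {k : ℕ | n ∣ k.factorial})) ∧
    ∀ α d : ℝ, 0 < α → 1 ≤ d → Expanding (fun v => α * (v : ℝ) ^ d) d := by
  refine ⟨fun δ hδ => ?_, ⟨fun f h1 h2 h3 => pd_additive h1 h2 h3, pd_largest, pd_kempner⟩,
    fun α d hα hd => expanding_pow hα hd⟩
  obtain ⟨τ, C, hτ, hτ1, hcount⟩ := count' δ hδ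
  refine ⟨τ, hτ, hτ1, fun fs hfs G d hG κ hκ h1 => ?_⟩
  obtain ⟨c, K, hc, hK⟩ := windows_unif (fun t : ℕ => (t : ℝ)) fs hfs hG (s := 1 - τ) (κ := κ) (by linarith) hκ h1 C
  refine ⟨c, K, hc, fun 𝒜 N hN => le_trans ?_ (hK {p : ℕ | p.Prime ∧ ¬ Good δ τ 𝒜 p} (hcount 𝒜) N hN)⟩
  have hfin : {m : ℕ | 1 ≤ m ∧ m ≤ N ∧ ∃ t ∈ {p : ℕ | p.Prime ∧ ¬ Good δ τ 𝒜 p},
      |(t : ℝ) - G (comp fs m)| ≤ (comp fs m : ℝ) ^ κ}.Finite :=
    (Set.finite_Icc 1 N).subset fun m hm => ⟨hm.1, hm.2.1⟩
  have h2 : {m : ℕ | 1 ≤ m ∧ m ≤ N ∧ ¬ ∀ p : ℕ, p.Prime → |(p : ℝ) - G (comp fs m)| ≤ (comp fs m : ℝ) ^ κ → Good δ τ 𝒜 p} ⊆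
      {m : ℕ | 1 ≤ m ∧ m ≤ N ∧ ∃ t ∈ {p : ℕ | p.Prime ∧ ¬ Good δ τ 𝒜 p},
      |(t : ℝ) - G (comp fs m)| ≤ (comp fs m : ℝ) ^ κ} := by
    rintro m ⟨h2, h3, h4⟩
    push Not at h4
    obtain ⟨n, hn, h5, h6⟩ := h4
    exact ⟨h2, h3, n, ⟨hn, h6⟩, h5⟩
  exact_mod_cast Set.ncard_le_ncard h2 hfin

end Pool.Agent.Results.MP_cb27ba_nt.AdditiveValues
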