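import Pool.Agent.L7h79.CB.GP

/-!
# Difference sums: small sets without any coincidences decide the question

Notation: `S_χ(A) = ∑ a ∈ A, ∑ b ∈ A, χ (a - b)`. We show that the question is decided on very small and completely
unstructured sets.

* (1) A saving `p ^ (-δ₁)` for the sets `A` with `p ^ ε₁ < |A| ≤ 4 p ^ ε₁` in general position with respect to any polynomials
  `Ps p` in `n + 1` variables, whose number times degree is at most `p ^ κ`, gives the saving `p ^ (-δ)` for ALL sets with more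
  than `p ^ ε` elements, if `ε > max (n ε₁ + κ, ε₁)` and `δ < min (δ₁, ε₁, ε - max (n ε₁ + κ, ε₁))`; this holds for every family
  `F` of characters (for instance the quadratic characters only).
* (2) Q1 is equivalent to its restriction to the sets in general position with `p ^ δ < |A| ≤ 4 p ^ δ`.
* (3) For every `h`, Q1 is equivalent to its restriction to the sets with `p ^ δ < |A| ≤ 4 p ^ δ` all of whose sums of `h`
  elements and all of whose products of `h` elements are different. For `h = 2` all differences of different elements of `A`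
  (and all quotients) are different.

Proof. A random subset of size `≈ p ^ ε₁` of a larger set with a large sum has, after the removal of few elements, a large
sum and is in general position (`Pool.Agent.N793.GP.sample`, starting files).
-/

set_option autoImplicit false

namespace Pool.Agent.Results.MP_cb27ba_nt.GeneralPosition

open Pool.Agent.N793.GP (GenPos Few AddB MulB rel rel_few)
open Pool.Agent.L7h79.CB (WinGP DSaves SavesR iff_gp)

/-- the positive answer to the question, word for word -/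
def Q1 : Prop :=
  ∀ δ : ℝ, 0 < δ → ∃ τ : ℝ, 0 < τ ∧ ∃ p₀ : ℕ, ∀ p : ℕ, p.Prime → p₀ < p → ∀ A : Finset (ZMod p),
    (p : ℝ) ^ δ < (A.card : ℝ) → ∀ χ : DirichletCharacter ℂ p, χ ≠ 1 →
      ‖∑ a ∈ A, ∑ b ∈ A, χ (a - b)‖ < (A.card : ℝ) ^ (2 - τ)

theorem q1_iff : Q1 ↔ ∀ δ : ℝ, 0 < δ → ∃ τ : ℝ, 0 < τ ∧ SavesR (fun _ _ => True) δ τ := by
  constructor
  · intro h δ hδ
    obtain ⟨τ, hτ, p₀, H⟩ := h δ hδ
    exact ⟨τ, hτ, p₀, fun p hp hlt A hA _ χ hχ => H p hp hlt A hA χ hχ⟩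
  · intro h δ hδ
    obtain ⟨τ, hτ, p₀, H⟩ := h δ hδ
    exact ⟨τ, hτ, p₀, fun p hp hlt A hA χ hχ => H p hp hlt A hA trivial χ hχ⟩

/-- **Small sets in general position decide the question.** -/
theorem result :
    -- (1) the sets in general position in one window of sizes control all larger sets
    (∀ (F : ∀ p : ℕ, MulChar (ZMod p) ℂ → Prop) (n : ℕ)
      (Ps : ∀ p : ℕ, Finset (MvPolynomial (Fin (n + 1)) (ZMod p))) (κ ε₁ δ₁ ε δ : ℝ),
        Few Ps κ → 0 < ε₁ → max (n * ε₁ + κ) ε₁ < ε →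
        δ < min (min δ₁ ε₁) (ε - max (n * ε₁ + κ) ε₁) →
          WinGP F Ps ε₁ δ₁ → DSaves F ε δ) ∧
    -- (2) the question is decided on small sets in general position
    (∀ (n : ℕ) (Ps : ∀ p : ℕ, Finset (MvPolynomial (Fin (n + 1)) (ZMod p))),
      (∀ κ : ℝ, 0 < κ → Few Ps κ) →
        (Q1 ↔ ∀ δ : ℝ, 0 < δ → ∃ τ : ℝ, 0 < τ ∧ ∃ p₀ : ℕ, ∀ p : ℕ, p.Prime → p₀ < p →
          ∀ A : Finset (ZMod p), (p : ℝ) ^ δ < (A.card : ℝ) → (A.card : ℝ) ≤ 4 * (p : ℝ) ^ δ → GenPos (Ps p) A →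
            ∀ χ : DirichletCharacter ℂ p, χ ≠ 1 →
              ‖∑ a ∈ A, ∑ b ∈ A, χ (a - b)‖ < (A.card : ℝ) ^ (2 - τ))) ∧
    -- (3) the question is decided on small additive and multiplicative `B_h` sets
    (∀ h : ℕ, 1 ≤ h →
      (Q1 ↔ ∀ δ : ℝ, 0 < δ → ∃ τ : ℝ, 0 < τ ∧ ∃ p₀ : ℕ, ∀ p : ℕ, p.Prime → p₀ < p →
        ∀ A : Finset (ZMod p), (p : ℝ) ^ δ < (A.card : ℝ) → (A.card : ℝ) ≤ 4 * (p : ℝ) ^ δ → AddB h A → MulB h A →
            ∀ χ : DirichletCharacter ℂ p, χ ≠ 1 →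
              ‖∑ a ∈ A, ∑ b ∈ A, χ (a - b)‖ < (A.card : ℝ) ^ (2 - τ))) := by
  have two : ∀ (n : ℕ) (Ps : ∀ p : ℕ, Finset (MvPolynomial (Fin (n + 1)) (ZMod p))),
      (∀ κ : ℝ, 0 < κ → Few Ps κ) →
        (Q1 ↔ ∀ δ : ℝ, 0 < δ → ∃ τ : ℝ, 0 < τ ∧ ∃ p₀ : ℕ, ∀ p : ℕ, p.Prime → p₀ < p →
          ∀ A : Finset (ZMod p), (p : ℝ) ^ δ < (A.card : ℝ) → (A.card : ℝ) ≤ 4 * (p : ℝ) ^ δ → GenPos (Ps p) A →
            ∀ χ : DirichletCharacter ℂ p, χ ≠ 1 →
              ‖∑ a ∈ A, ∑ b ∈ A, χ (a - b)‖ < (A.card : ℝ) ^ (2 - τ)) := by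
    intro n Ps hPs
    rw [q1_iff, iff_gp hPs]
    constructor
    · intro h δ hδ
      obtain ⟨τ, hτ, p₀, H⟩ := h δ hδ
      exact ⟨τ, hτ, p₀, fun p hp hlt A hA h4 hgp χ hχ => H p hp hlt A hA ⟨h4, hgp⟩ χ hχ⟩
    · intro h δ hδ
      obtain ⟨τ, hτ, p₀, H⟩ := h δ hδ
      exact ⟨τ, hτ, p₀, fun p hp hlt A hA hR χ hχ => H p hp hlt A hA hR.1 hR.2 χ hχ⟩
  refine ⟨?_, two, ?_⟩
  · intro F n Ps κ ε₁ δ₁ ε δ hPs h0 h1 h2 H
    exact H.saves hPs h0 h1 h2
  · intro h hh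
    obtain ⟨k, rfl⟩ : ∃ k, h = k + 1 := ⟨h - 1, by omega⟩
    constructor
    · intro hQ δ hδ
      obtain ⟨τ, hτ, p₀, H⟩ := hQ δ hδ
      exact ⟨τ, hτ, p₀, fun p hp hlt A hA _ _ _ χ hχ => H p hp hlt A hA χ hχ⟩
    · intro hB
      refine (two (2 * k + 1) (rel (2 * k + 1 + 1) (k + 1)) (fun κ hκ => rel_few _ _ hκ)).2 ?_
      intro δ hδ
      obtain ⟨τ, hτ, p₀, H⟩ := hB δ hδ
      obtain ⟨p₁, hp₁⟩ := Pool.Agent.N793.PG.large ((2 * k + 1 + 1 : ℕ) : ℝ) δ hδ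
      refine ⟨τ, hτ, p₀ + p₁, fun p hp hlt A hA h4 hgp χ hχ => ?_⟩
      have hNA : 2 * k + 1 + 1 ≤ A.card := by
        have h1 := (hp₁ p (by omega)).trans hA.le
        exact_mod_cast h1
      exact H p hp (by omega) A hA h4 (Pool.Agent.N793.GP.GenPos.addB hgp (by omega) hNA)
        (Pool.Agent.N793.GP.GenPos.mulB hgp (by omega) hNA) χ hχ

end Pool.Agent.Results.MP_cb27ba_nt.GeneralPosition
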