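import Pool.Agent.N375.MV.Unif
import Pool.Agent.N918.MS.Seq
import Pool.Agent.L7h79.CB.Count
import Pool.Agent.L7h79.Gen.AA

/-!
# The initial segments of arbitrary sets of integers for ALL primes near the members of random and metric sequences

Let `𝒜_0, 𝒜_1, …` be any sets of nonnegative integers (no condition on their structure or energy) and let `𝒜(p)` be the set of
the elements of `𝒜` below the prime `p`. Let `G` be a function with steps bounded below by a positive constant and growth at
most `v ^ d`, for example `G v = v`. For every `δ > 0` there is `τ > 0` (independent of `G` and of the sets) such that the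
following holds for `κ ≥ 0`, `d (1 - τ) + κ < 1`. Say that the integer `k` is good for `𝒜` if ALL primes `p` with
`|p - G |k|| ≤ |k| ^ κ` and `|𝒜(p)| ≥ p ^ δ` satisfy the bound of the question for the quadratic character and all subsets `A` of
`𝒜(p)` with at least `|𝒜(p)| ^ (1 - τ)` elements: `|∑_{a, b ∈ A} (a - b | p)| < |A| ^ (2 - τ)`. Then, for all the sets `𝒜_i` at
once, outside of ONE event (set) of probability (measure) zero:

* for random integers `X_n`, of ANY dependence, with `P (X_n = k) ≤ C / (|k| + 1)`, all but finitely many `X_n` are good for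
  `𝒜_i`, if `|X_n| ≥ exp (n ^ η)` outside of events with a convergent sum of probabilities; all but `M / (log M) ^ U` of the
  `X_n`, `n < M`, are good for all `U`, if `∑_{n < M} P (|X_n| < M ^ η) ≤ C M ^ (1 - η)`;
* for all linear forms `a_n` in `r` variables with norms at least `exp (n ^ η)`, for almost all vectors `α`, all but finitely
  many `⌊a_n (α)⌋` are good; the same for `⌊h_n (x)⌋`, for almost all `x` in an interval on which `|h_n'| ≥ c |h_n|` and
  `|h_n| ≥ exp (n ^ η)`; the same for `⌊ξ x ^ n⌋`, for all `ξ ≠ 0` and almost all `x > 1`;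
* for ANY sequence of real numbers `a_n` with mutual distances at least `η > 0`, in any order, and almost all real `α` all but
  `M / (log M) ^ U` of the `⌊a_n α⌋`, `n < M`, are good, for all `U`.
-/

set_option autoImplicit false

namespace Pool.Agent.Results.MP_cb27ba_nt.MetricSequences

open Finset
open Pool.Agent.L7h79.CB (Good count')
open Pool.Agent.L7h79.Gen (almostAlways_of)
open Pool.Agent.N733.TG (Expanding expanding_pow NearG)
open Pool.Agent.N918.MS (RandomAndMetric randomAndMetric)

/-- ALL primes `p` with `|p - G |k|| ≤ |k| ^ κ` are good for `𝒜` -/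
def GoodNear (δ τ κ : ℝ) (G : ℕ → ℝ) (𝒜 : Set ℕ) (k : ℤ) : Prop :=
  ∀ p : ℕ, p.Prime → |(p : ℝ) - G k.natAbs| ≤ (k.natAbs : ℝ) ^ κ → Good δ τ 𝒜 p

/-- **Theorem.** For every `δ > 0` there is `τ` in `(0, 1]` with the following property. Let `G` have steps `≥ a > 0` and growth
at most `v ^ d`. Let `κ ≥ 0` and `d (1 - τ) + κ < 1`, and let `𝒜_0, 𝒜_1, …` be ANY sets of nonnegative integers. Then the family
of the properties `GoodNear` of the integer `k` (all primes `p` with `|p - G |k|| ≤ |k| ^ κ` are good for `𝒜_i`) has all the properties of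
the structure `RandomAndMetric`. -/
theorem result :
    (∀ δ : ℝ, 0 < δ → ∃ τ : ℝ, 0 < τ ∧ τ ≤ 1 ∧ ∀ (G : ℕ → ℝ) (d : ℝ), Expanding G d → ∀ κ : ℝ, 0 ≤ κ →
      d * (1 - τ) + κ < 1 → ∀ 𝒜 : ℕ → Set ℕ, RandomAndMetric (fun i k => GoodNear δ τ κ G (𝒜 i) k)) ∧
    ∀ α d : ℝ, 0 < α → 1 ≤ d → Expanding (fun v => α * (v : ℝ) ^ d) d := by
  refine ⟨fun δ hδ => ?_, fun α d hα hd => expanding_pow hα hd⟩
  obtain ⟨τ, C, hτ, hτ1, hcount⟩ := count' δ hδ
  refine ⟨τ, hτ, hτ1, fun G d hG κ hκ h1 𝒜 => randomAndMetric _ fun i => ?_⟩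
  have hd := hG.one_le
  have hds : 0 ≤ d * (1 - τ) := mul_nonneg (by linarith) (by linarith)
  obtain ⟨K, hK⟩ := Pool.Agent.N375.MV.nearG_count_unif (fun t : ℕ => (t : ℝ)) hG (s := 1 - τ) (κ := κ) (by linarith) hκ
    (by linarith) C
  refine almostAlways_of (E := NearG {p : ℕ | p.Prime ∧ ¬ Good δ τ (𝒜 i) p} (fun t : ℕ => (t : ℝ)) G κ)
    (θ := d * (1 - τ) + κ) (K := K) ?_ (by linarith) h1 ?_
  · intro k _ hk p hp hnear
    by_contra hcon
    exact hk ⟨p, ⟨hp, hcon⟩, hnear⟩
  · intro X hX
    have := hK _ (hcount (𝒜 i)) X hX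
    convert this using 3

end Pool.Agent.Results.MP_cb27ba_nt.MetricSequences
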