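import Pool.Agent.R482.ST.Star
import Pool.Agent.L7h79.CB.Count

/-!
# The initial segments of arbitrary sets of integers for ALL primes near powers, orbits and other sequences

Let `f_k`, `k = 0, 1, 2, …`, be positive functions on `(a, ∞)`, `a ≥ 0`, such that `f_k(t) / t` is nondecreasing, and such that
the sequence `f_k(t)` has exponent of convergence at most `σ` for each `t > a`: for instance `f_k(t) = v_k t` (dilatations; `σ`
the exponent of convergence of `v_k > 0`), `f_k(t) = t ^ (v_k)` for exponents `v_k ≥ 1` (`σ = 0`), or the orbits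
`f_k(t) = g (g (⋯ g (t)))` of any map `g` with `g(t) > t` and `g(t) / t` nondecreasing (`σ = 0`). Let `𝒜` be any set of
nonnegative integers (no condition on its structure or energy) and let `𝒜(p)` be the set of its elements below the prime `p`.
For every `δ > 0` there is `τ > 0` (independent of `f` and `𝒜`) such that for `θ < 1` and all `α > a` outside a set of Hausdorff
dimension at most `(1 - τ + σ) / (1 - θ)` and each `κ`, for all but finitely many `k`, ALL primes `p` with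
`|p - f_k(α)| ≤ κ f_k(α) ^ θ` and `|𝒜(p)| ≥ p ^ δ` satisfy the bound of the question for the quadratic character and all subsets
`A` of `𝒜(p)` with at least `|𝒜(p)| ^ (1 - τ)` elements: `|∑_{a, b ∈ A} (a - b | p)| < |A| ^ (2 - τ)`. One exceptional set of `α`
suffices for countably many sets `𝒜`. For `σ + θ < τ` the bound for the dimension is less than `1`, and so the statement holds
for almost all `α`.
-/

set_option autoImplicit false

namespace Pool.Agent.Results.MP_cb27ba_nt.StarshapedPrimes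

open Finset
open Pool.Agent.L7h79.CB (Good count')

/-- the functions `f n` are positive on `(a, ∞)`, `a ≥ 0`, and `f n x / x` is nondecreasing there -/
def Starshaped (a : ℝ) (f : ℕ → ℝ → ℝ) : Prop :=
  0 ≤ a ∧ ∀ n : ℕ, ∀ x y : ℝ, a < x → x ≤ y → 0 < f n x ∧ f n x / x ≤ f n y / y

/-- for each `x > a` the exponent of convergence of the sequence `f n x` is at most `σ` -/
def ExpLe (a : ℝ) (f : ℕ → ℝ → ℝ) (σ : ℝ) : Prop :=
  ∀ x : ℝ, a < x → ∀ t : ℝ, σ < t → Summable (fun n : ℕ => (f n x) ^ (-t))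

/-- **Theorem.** For every `δ > 0` there is `τ` in `(0, 1]` such that for all starshaped functions `f` on `(a, ∞)` of exponent
of convergence at most `σ ≥ 0`, all `θ < 1` and ANY sets `𝒜_0, 𝒜_1, …` of nonnegative integers there is ONE set `E` of
Hausdorff dimension at most `(1 - τ + σ) / (1 - θ)` such that for each `α > a` outside `E`, all `i` and `κ` and all but finitely
many `k`, ALL primes `p` with `|p - f_k(α)| ≤ κ f_k(α) ^ θ` are good for `𝒜_i`.
The functions `v_n x`, `v_n > 0`, are starshaped on `(0, ∞)`, of exponent `σ` if `v` has exponent of convergence at most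
`σ`; the functions `x ^ (v_n)`, `v_n ≥ 1`, are starshaped on `(1, ∞)`, of exponent `0` if the sums of `exp (-t v_n)` converge
for `t > 0`; and the iterates of a map `g` with `g(x) > x` for `x > a` and `g(x) / x` nondecreasing are starshaped on
`(a, ∞)`, of exponent `0`. -/
theorem result :
    (∀ δ : ℝ, 0 < δ → ∃ τ : ℝ, 0 < τ ∧ τ ≤ 1 ∧
      ∀ (f : ℕ → ℝ → ℝ) (a σ θ : ℝ), Starshaped a f → 0 ≤ σ → ExpLe a f σ → θ < 1 → ∀ 𝒜 : ℕ → Set ℕ,
        ∃ E : Set ℝ, dimH E ≤ ENNReal.ofReal ((1 - τ + σ) / (1 - θ)) ∧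
          ∀ α : ℝ, a < α → α ∉ E → ∀ (i : ℕ) (κ : ℝ), ∃ k₀ : ℕ, ∀ k : ℕ, k₀ ≤ k → ∀ p : ℕ, p.Prime →
            |(p : ℝ) - f k α| ≤ κ * (f k α) ^ θ → Good δ τ (𝒜 i) p) ∧
    (∀ (v : ℕ → ℝ) (σ : ℝ), (∀ n, 0 < v n) → (∀ t : ℝ, σ < t → Summable (fun n : ℕ => (v n) ^ (-t))) →
      Starshaped 0 (fun n x => v n * x) ∧ ExpLe 0 (fun n x => v n * x) σ) ∧
    (∀ v : ℕ → ℝ, (∀ n, 1 ≤ v n) → (∀ t : ℝ, 0 < t → Summable fun n : ℕ => Real.exp (-(t * v n))) →
      Starshaped 1 (fun n x => x ^ (v n)) ∧ ExpLe 1 (fun n x => x ^ (v n)) 0) ∧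
    (∀ (a : ℝ) (g : ℝ → ℝ), 0 ≤ a → (∀ x y : ℝ, a < x → x ≤ y → g x / x ≤ g y / y) → (∀ x : ℝ, a < x → x < g x) →
      Starshaped a (fun n x => g^[n] x) ∧ ExpLe a (fun n x => g^[n] x) 0) := by
  refine ⟨fun δ hδ => ?_, Pool.Agent.R482.ST.ex_mul, Pool.Agent.R482.ST.ex_pow, Pool.Agent.R482.ST.ex_orbit⟩
  obtain ⟨τ, C, hτ, hτ1, hcount⟩ := count' δ hδ
  refine ⟨τ, hτ, hτ1, fun f a σ θ hf hσ hE hθ 𝒜 => ?_⟩
  have key : ∀ i : ℕ, ∃ E : Set ℝ, dimH E ≤ ENNReal.ofReal ((1 - τ + σ) / (1 - θ)) ∧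
      ∀ α : ℝ, a < α → α ∉ E → ∀ κ : ℝ, ∃ k₀ : ℕ, ∀ k : ℕ, k₀ ≤ k → ∀ p : ℕ, p.Prime →
        |(p : ℝ) - f k α| ≤ κ * (f k α) ^ θ → Good δ τ (𝒜 i) p := by
    intro i
    obtain ⟨E, h1, h2⟩ := Pool.Agent.R482.ST.windows {q : ℕ | q.Prime ∧ ¬ Good δ τ (𝒜 i) q} (fun q => (q : ℝ)) hf hσ hE
      (s := 1 - τ) (sub_nonneg.2 hτ1) hθ (fun ε' hε' => by
        refine ⟨|C|, fun X hX => ?_⟩
        obtain ⟨g1, g2⟩ := hcount (𝒜 i) X hX
        refine ⟨g1, g2.trans ?_⟩
        have h3 : X ^ (1 - τ) ≤ X ^ (1 - τ + ε') := Real.rpow_le_rpow_of_exponent_le hX (by linarith)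
        have h4 : 0 ≤ X ^ (1 - τ) := by positivity
        exact (mul_le_mul_of_nonneg_right (le_abs_self C) h4).trans (mul_le_mul_of_nonneg_left h3 (abs_nonneg C)))
    refine ⟨E, h1, fun α hα hαE κ => ?_⟩
    obtain ⟨k₀, hk⟩ := h2 α hα hαE κ
    refine ⟨k₀, fun k hk1 q hq hw => ?_⟩
    by_contra hcon
    exact absurd (hk k hk1 q ⟨hq, hcon⟩) (not_lt.2 hw)
  choose E hE1 hE2 using key
  refine ⟨⋃ i, E i, ?_, fun α hα hαE i κ => hE2 i α hα (fun h => hαE (Set.mem_iUnion.2 ⟨i, h⟩)) κ⟩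
  rw [dimH_iUnion]
  exact iSup_le hE1

end Pool.Agent.Results.MP_cb27ba_nt.StarshapedPrimes
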